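import Pool.Agent.N190.CG.Defs

/-!
# Linear algebra of the excess
-/

open Finset

namespace Pool.Agent.N190.CG

open Pool.Agent.TH133.PW

variable {K : Type*} [Field K] {V : Type*} [AddCommGroup V] [Module K V]

section Fin

variable [Module.Finite K V] {n : ℕ}

lemma excess_modular (N N' : ℕ → Submodule K V) :
    excess n (N ⊔ N') + excess n (N ⊓ N') = excess n N + excess n N' := by
  unfold excess
  rw [← sum_add_distrib, ← sum_add_distrib]
  refine sum_congr rfl fun i _ => ?_
  have h := Submodule.finrank_sup_add_finrank_inf_eq (N i) (N' i)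
  rw [← mul_add, ← mul_add, Pi.sup_apply, Pi.inf_apply]
  congr 1
  exact_mod_cast h

/-- The total dimension. -/
noncomputable def total (n : ℕ) (N : ℕ → Submodule K V) : ℤ :=
  ∑ i ∈ range (2 * n + 1), (Module.finrank K (N i) : ℤ)

lemma total_nonneg (N : ℕ → Submodule K V) : 0 ≤ total n N :=
  sum_nonneg fun _ _ => Int.natCast_nonneg _

lemma total_mono {N N' : ℕ → Submodule K V} (h : ∀ i, N i ≤ N' i) : total n N ≤ total n N' :=
  sum_le_sum fun i _ => by exact_mod_cast Submodule.finrank_mono (h i)

lemma eq_of_total_le {N N' : ℕ → Submodule K V} (h : ∀ i, N i ≤ N' i)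
    (ht : total n N' ≤ total n N) : ∀ i ≤ 2 * n, N i = N' i := by
  intro i hi
  by_contra hne
  have hlt : Module.finrank K (N i) < Module.finrank K (N' i) :=
    Submodule.finrank_lt_finrank_of_lt (lt_of_le_of_ne (h i) hne)
  have : total n N < total n N' := by
    apply sum_lt_sum
    · intro j _
      exact_mod_cast Submodule.finrank_mono (h j)
    · exact ⟨i, mem_range.2 (by omega), by exact_mod_cast hlt⟩
  omega

lemma excess_le_of_le (N : ℕ → Submodule K V) : excess n N ≤ n * total n N := by
  unfold excess total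
  rw [mul_sum]
  refine sum_le_sum fun i hi => ?_
  have h1 := mem_range.1 hi
  have h2 : (i : ℤ) - n ≤ n := by omega
  exact mul_le_mul_of_nonneg_right h2 (Int.natCast_nonneg _)

variable {gr : ℕ → Submodule K V} {S : ℕ → Set (V →ₗ[K] V)}

lemma stable_sup {N N' : ℕ → Submodule K V} (h : IsStableUnder gr n S N)
    (h' : IsStableUnder gr n S N') : IsStableUnder gr n S (N ⊔ N') where
  le i := sup_le (h.le i) (h'.le i)
  stable := by
    intro p i j hij φ hφ x hx
    obtain ⟨y, hy, z, hz, rfl⟩ := Submodule.mem_sup.1 hx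
    rw [map_add]
    exact Submodule.add_mem_sup (h.stable hij φ hφ y hy) (h'.stable hij φ hφ z hz)

lemma stable_inf {N N' : ℕ → Submodule K V} (h : IsStableUnder gr n S N)
    (h' : IsStableUnder gr n S N') : IsStableUnder gr n S (N ⊓ N') where
  le i := inf_le_left.trans (h.le i)
  stable := fun hij φ hφ x hx => ⟨h.stable hij φ hφ x hx.1, h'.stable hij φ hφ x hx.2⟩

lemma isStableUnder_bot : IsStableUnder gr n S (⊥ : ℕ → Submodule K V) where
  le _ := bot_le
  stable := by
    intro p i j _ φ _ x hx
    have hx0 : x = 0 := hx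
    rw [hx0, map_zero]
    exact Submodule.zero_mem _

lemma excess_bot : excess n (⊥ : ℕ → Submodule K V) = 0 := by
  unfold excess
  refine sum_eq_zero fun i _ => ?_
  rw [Pi.bot_apply, finrank_bot, Nat.cast_zero, mul_zero]

lemma stable_span {N : ℕ → Submodule K V} (h : IsStableUnder gr n S N) {p i j : ℕ}
    (hij : j + 2 * n = i + 2 * p) {ψ : V →ₗ[K] V} (hψ : ψ ∈ Submodule.span K (S p)) {x : V}
    (hx : x ∈ N i) : ψ x ∈ N j := by
  induction hψ using Submodule.span_induction with
  | mem φ hφ => exact h.stable hij φ hφ x hx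
  | zero => exact Submodule.zero_mem _
  | add φ ψ _ _ h1 h2 => exact Submodule.add_mem _ h1 h2
  | smul a φ _ h => exact Submodule.smul_mem _ _ h

variable (gr S n) in
/-- **The smallest graded subspace of largest excess.** -/
theorem exists_obstruction (hbd : ∀ i, 2 * n < i → gr i = ⊥) :
    ∃ O : ℕ → Submodule K V, IsStableUnder gr n S O ∧
      (∀ N, IsStableUnder gr n S N → excess n N ≤ excess n O) ∧
      ∀ N, IsStableUnder gr n S N → excess n N = excess n O → ∀ i, O i ≤ N i := by
  set T : ℤ := total n gr with hT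
  have hT0 : 0 ≤ T := total_nonneg gr
  have htot : ∀ N, IsStableUnder gr n S N → total n N ≤ T := fun N hN => total_mono hN.le
  set M : (ℕ → Submodule K V) → ℤ := fun N => (T + 1) * excess n N - total n N with hM
  obtain ⟨m, ⟨O, hO, hOm⟩, hmax⟩ := Int.exists_greatest_of_bdd
    (P := fun m => ∃ N, IsStableUnder gr n S N ∧ M N = m)
    ⟨(T + 1) * (n * T), by
      rintro z ⟨N, hN, rfl⟩
      have h1 := excess_le_of_le (n := n) N
      have h2 := htot N hN
      have h3 := total_nonneg (n := n) N
      have h4 : (n : ℤ) * total n N ≤ n * T := mul_le_mul_of_nonneg_left h2 (Int.natCast_nonneg _)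
      have h5 : (T + 1) * excess n N ≤ (T + 1) * (n * T) :=
        mul_le_mul_of_nonneg_left (h1.trans h4) (by omega)
      simp only [hM]
      omega⟩
    ⟨M ⊥, ⊥, isStableUnder_bot, rfl⟩
  have hmax' : ∀ N, IsStableUnder gr n S N → M N ≤ M O := fun N hN => by
    rw [hOm]
    exact hmax _ ⟨N, hN, rfl⟩
  have hlarge : ∀ N, IsStableUnder gr n S N → excess n N ≤ excess n O := by
    intro N hN
    by_contra hcon
    push Not at hcon
    have h1 := hmax' N hN
    have h2 : (T + 1) * (excess n O + 1) ≤ (T + 1) * excess n N :=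
      mul_le_mul_of_nonneg_left (by omega) (by omega)
    have h3 := htot N hN
    have h4 := total_nonneg (n := n) O
    simp only [hM] at h1
    have h5 : (T + 1) * (excess n O + 1) = (T + 1) * excess n O + (T + 1) := by ring
    omega
  refine ⟨O, hO, hlarge, ?_⟩
  intro N hN he i
  have h1 := excess_modular (n := n) O N
  have h2 := hlarge _ (stable_sup hO hN)
  have h3 := hlarge _ (stable_inf hO hN)
  have h4 : excess n (O ⊓ N) = excess n O := by omega
  have h5 := hmax' _ (stable_inf hO hN)
  have h6 : total n O ≤ total n (O ⊓ N) := by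
    simp only [hM] at h5
    rw [h4] at h5
    omega
  by_cases hi : i ≤ 2 * n
  · have h7 := eq_of_total_le (n := n) (N := O ⊓ N) (N' := O) (fun i => inf_le_left) h6 i hi
    rw [← h7]
    exact inf_le_right
  · have h7 := hO.le i
    rw [hbd i (by omega)] at h7
    exact h7.trans bot_le

/-- The image under a semilinear automorphism. -/
def SemiAut.image (g : SemiAut K V) (N : Submodule K V) : Submodule K V where
  carrier := g.σ '' N
  add_mem' := by
    rintro _ _ ⟨x, hx, rfl⟩ ⟨y, hy, rfl⟩
    exact ⟨x + y, N.add_mem hx hy, map_add _ _ _⟩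
  zero_mem' := ⟨0, N.zero_mem, map_zero _⟩
  smul_mem' := by
    rintro c _ ⟨x, hx, rfl⟩
    refine ⟨g.τ.symm c • x, N.smul_mem _ hx, ?_⟩
    rw [g.smul, RingEquiv.apply_symm_apply]

lemma SemiAut.mem_image (g : SemiAut K V) {N : Submodule K V} {x : V} :
    x ∈ g.image N ↔ ∃ y ∈ N, g.σ y = x := Iff.rfl

lemma SemiAut.finrank_image (g : SemiAut K V) (N : Submodule K V) :
    Module.finrank K (g.image N) = Module.finrank K N := by
  let j : N ≃+ g.image N :=
    { toFun := fun x => ⟨g.σ x, x, x.2, rfl⟩
      invFun := fun y => ⟨g.σ.symm y, by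
        obtain ⟨x, hx, h⟩ := y.2
        rw [← h, AddEquiv.symm_apply_apply]
        exact hx⟩
      left_inv := fun x => Subtype.ext (AddEquiv.symm_apply_apply _ _)
      right_inv := fun y => Subtype.ext (AddEquiv.apply_symm_apply _ _)
      map_add' := fun x y => Subtype.ext (map_add _ _ _) }
  have h := rank_eq_of_equiv_equiv (R := K) (R' := K) (M := N) (M₁ := g.image N) g.τ j
    g.τ.bijective (fun c x => Subtype.ext (g.smul c x))
  exact (congrArg Cardinal.toNat h).symm

lemma image_stable {g : SemiAut K V} (hg : IsSymmetry gr S g) {N : ℕ → Submodule K V}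
    (hN : IsStableUnder gr n S N) : IsStableUnder gr n S (fun i => g.image (N i)) where
  le i := by
    rintro _ ⟨x, hx, rfl⟩
    exact hg.deg i x (hN.le i hx)
  stable := by
    rintro p i j hij φ hφ _ ⟨x, hx, rfl⟩
    obtain ⟨ψ, hψ, h⟩ := hg.conj p φ hφ
    exact ⟨ψ x, stable_span hN hij hψ hx, h x⟩

/-- **Invariance of the obstruction.** -/
lemma invariant_of_least {O : ℕ → Submodule K V} (hO : IsStableUnder gr n S O)
    (hbd : ∀ i, 2 * n < i → gr i = ⊥)
    (hleast : ∀ N, IsStableUnder gr n S N → excess n N = excess n O → ∀ i, O i ≤ N i)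
    {g : SemiAut K V} (hg : IsSymmetry gr S g) : IsInvariant g O := by
  have h1 : excess n (fun i => g.image (O i)) = excess n O := by
    unfold excess
    refine sum_congr rfl fun i _ => ?_
    rw [g.finrank_image]
  have h2 := hleast _ (image_stable hg hO) h1
  intro i x hx
  have h3 : O i = g.image (O i) :=
    Submodule.eq_of_le_of_finrank_le (h2 i) (by rw [g.finrank_image])
  rw [h3]
  exact ⟨x, hx, rfl⟩

end Fin

end Pool.Agent.N190.CG
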