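import Pool.Agent.TH133.PW.Defs

/-!
# The canonical obstruction to the Lefschetz standard conjecture: definitions
-/

open CategoryTheory AlgebraicGeometry Finset

universe u v

namespace Pool.Agent.N190.CG

open Pool.Agent.H914 VarClass Obj WeilCohomology Pool.Agent.TH133.PW

section Alg

variable {K : Type*} [Field K] {V : Type*} [AddCommGroup V] [Module K V]

/-- The excess `∑_{i ≤ 2 n} (i - n) dim (N i)` of the graded subspace `N`: it is the total dimension
of `N` times the difference between the center of gravity of `N` and `n`. -/
noncomputable def excess (n : ℕ) (N : ℕ → Submodule K V) : ℤ :=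
  ∑ i ∈ range (2 * n + 1), ((i : ℤ) - n) * Module.finrank K (N i)

/-- A semilinear automorphism `σ` of the vector space `V`, with the automorphism `τ` of the field of
scalars. -/
structure SemiAut (K V : Type*) [Field K] [AddCommGroup V] [Module K V] where
  /-- the automorphism of the scalars -/
  τ : K ≃+* K
  /-- the automorphism of the space -/
  σ : V ≃+ V
  smul : ∀ (c : K) (x : V), σ (c • x) = τ c • σ x

/-- The semilinear automorphism `g` preserves the degrees, and conjugation with it maps the operators
in `S p` to linear combinations of operators in `S p`. -/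
structure IsSymmetry (gr : ℕ → Submodule K V) (S : ℕ → Set (V →ₗ[K] V)) (g : SemiAut K V) :
    Prop where
  deg : ∀ i, ∀ x ∈ gr i, g.σ x ∈ gr i
  conj : ∀ p, ∀ φ ∈ S p, ∃ ψ ∈ Submodule.span K (S p), ∀ x, g.σ (ψ x) = φ (g.σ x)

/-- The spaces `N i` are stable under `g`. -/
def IsInvariant (g : SemiAut K V) (N : ℕ → Submodule K V) : Prop :=
  ∀ i, ∀ x ∈ N i, g.σ x ∈ N i

end Alg

variable {k : Type u} [Field k] {𝒱 : VarClass k} {ops : CycleOps 𝒱}

/-- The graded subspace `O` of `H(X)` is stable under all algebraic correspondences; no stable graded
subspace has a larger excess; and `O` is contained in all stable graded subspaces with the same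
excess. -/
structure IsObstruction (W : WeilCohomology.{u, v} ops) (X : 𝒱.Obj)
    (O : ℕ → Submodule W.K (W.H X)) : Prop where
  stable : IsStable W X O
  largest : ∀ N, IsStable W X N → excess X.dim N ≤ excess X.dim O
  least : ∀ N, IsStable W X N → excess X.dim N = excess X.dim O → ∀ i, O i ≤ N i

/-- The graded subspace `N` of `H(X)` is stable under all semilinear automorphisms of `H(X)` which
preserve the degrees and normalize the spaces of linear combinations of algebraic
correspondences. -/
def IsFullyInvariant (W : WeilCohomology.{u, v} ops) (X : 𝒱.Obj)
    (N : ℕ → Submodule W.K (W.H X)) : Prop :=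
  ∀ g, IsSymmetry (W.gr X) (cycleOperators W X) g → IsInvariant g N

/-- The center of gravity of every graded subspace `N` of `H(X)` which is stable under all algebraic
correspondences and fully invariant, and on which the cup product pairing vanishes, is at most
`dim X`. -/
def GravityBound (W : WeilCohomology.{u, v} ops) (X : 𝒱.Obj) : Prop :=
  ∀ N, IsStable W X N → IsFullyInvariant W X N → IsIsotropicFor (W.tr X) N → excess X.dim N ≤ 0

/-- All graded subspaces of `H(X)` which are stable under all algebraic correspondences are
symmetric: `dim N^(n + c) = dim N^(n - c)` for `c ≤ n = dim X`. -/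
def StableSymmetric (W : WeilCohomology.{u, v} ops) (X : 𝒱.Obj) : Prop :=
  ∀ N, IsStable W X N → ∀ c ≤ X.dim,
    Module.finrank W.K (N (X.dim + c)) = Module.finrank W.K (N (X.dim - c))

end Pool.Agent.N190.CG
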