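import Pool.Agent.H914R2.Crit
import Pool.Agent.TH133.PW.Orb
import Pool.Agent.N190.CG.Alg

/-!
# The center of gravity criterion for the Lefschetz standard conjecture
-/

open CategoryTheory AlgebraicGeometry Finset

universe u v

namespace Pool.Agent.N190.CG

open Pool.Agent.H914 VarClass Obj WeilCohomology Pool.Agent.TH133.PW

section Sum

variable {K : Type*} [Field K] {V : Type*} [AddCommGroup V] [Module K V]

/-- The excess as a sum over the pairs of complementary degrees. -/
lemma excess_eq (n : ℕ) (N : ℕ → Submodule K V) :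
    excess n N = ∑ c ∈ range (n + 1), (c : ℤ) *
      ((Module.finrank K (N (n + c)) : ℤ) - Module.finrank K (N (n - c))) := by
  unfold excess
  rw [show 2 * n + 1 = n + (n + 1) by ring, sum_range_add]
  have h1 : ∑ i ∈ range n, ((i : ℤ) - n) * (Module.finrank K (N i) : ℤ) =
      ∑ c ∈ range (n + 1), -((c : ℤ) * Module.finrank K (N (n - c))) := by
    rw [sum_range_succ' (fun c : ℕ => -((c : ℤ) * (Module.finrank K (N (n - c)) : ℤ)))]
    rw [Nat.cast_zero, zero_mul, neg_zero, add_zero, ← sum_range_reflect]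
    refine sum_congr rfl fun j hj => ?_
    have hj' := mem_range.1 hj
    rw [show n - 1 - j = n - (j + 1) by omega, Nat.cast_sub (by omega)]
    push_cast
    ring
  rw [h1, ← sum_add_distrib]
  refine sum_congr rfl fun c _ => ?_
  push_cast
  ring

lemma sum_antisymm (n : ℕ) {f : ℕ → ℤ} (h : ∀ i ≤ 2 * n, f (2 * n - i) = -f i) :
    ∑ i ∈ range (2 * n + 1), f i = 0 := by
  have h1 := sum_range_reflect f (2 * n + 1)
  have h2 : ∑ i ∈ range (2 * n + 1), f (2 * n + 1 - 1 - i) =
      -∑ i ∈ range (2 * n + 1), f i := by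
    rw [← sum_neg_distrib]
    refine sum_congr rfl fun i hi => ?_
    have hi' := mem_range.1 hi
    rw [show 2 * n + 1 - 1 - i = 2 * n - i by omega]
    exact h i (by omega)
  omega

end Sum

variable {k : Type u} [Field k] {𝒱 : VarClass k} {ops : CycleOps 𝒱}
  {W : WeilCohomology.{u, v} ops} {X : 𝒱.Obj}

lemma betti_symm' {i : ℕ} (hi : i ≤ 2 * X.dim) :
    Module.finrank W.K (W.gr X (2 * X.dim - i)) = Module.finrank W.K (W.gr X i) := by
  rcases le_total i X.dim with h | h
  · exact betti_symm W h
  · have := betti_symm (X := X) W (i := 2 * X.dim - i) (by omega)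
    rw [show 2 * X.dim - (2 * X.dim - i) = i by omega] at this
    exact this.symm

/-- The orthogonal complement of a graded subspace. -/
noncomputable def perp (W : WeilCohomology.{u, v} ops) (X : 𝒱.Obj)
    (N : ℕ → Submodule W.K (W.H X)) (i : ℕ) : Submodule W.K (W.H X) :=
  W.gr X i ⊓ ⨅ j : ℕ, ⨅ w ∈ N j, LinearMap.ker (W.tr X ∘ₗ LinearMap.mulRight W.K w)

lemma mem_perp {N : ℕ → Submodule W.K (W.H X)} {i : ℕ} {x : W.H X} :
    x ∈ perp W X N i ↔ x ∈ W.gr X i ∧ ∀ j, ∀ w ∈ N j, W.tr X (x * w) = 0 := by
  simp [perp]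

lemma perp_isStable {N : ℕ → Submodule W.K (W.H X)} (hN : IsStable W X N) :
    IsStable W X (perp W X N) where
  le i := inf_le_left
  stable := by
    rintro p i j hij _ ⟨z, hz, rfl⟩ x hx
    obtain ⟨hx1, hx2⟩ := mem_perp.1 hx
    have hφ : W.corr (W.cl (X.prod X) z) ∈ KOp W X X ((p : ℤ) - X.dim) :=
      KOp.gen (p := p) (by ring) hz
    refine mem_perp.2 ⟨?_, fun l w hw => ?_⟩
    · have := KOp.isHom hφ i x (by rw [grZ_natCast]; exact hx1)
      rw [show (i : ℤ) + 2 * ((p : ℤ) - X.dim) = (j : ℤ) by omega, grZ_natCast] at this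
      exact this
    · obtain ⟨ψ, hψ, hadj⟩ := KOp.exists_adjoint hφ
      rw [hadj]
      by_cases hl : 0 ≤ (l : ℤ) + 2 * ((p : ℤ) - X.dim)
      · obtain ⟨l', hl'⟩ := Int.eq_ofNat_of_zero_le hl
        exact hx2 l' _ (hN.kop (by rw [← hl']; ring) hψ hw)
      · have := KOp.isHom hψ l w (by rw [grZ_natCast]; exact hN.le l hw)
        rw [grZ_of_neg (by omega)] at this
        rw [(Submodule.mem_bot _).1 this, mul_zero, map_zero]

lemma finrank_perp {N : ℕ → Submodule W.K (W.H X)} (hN : ∀ i, N i ≤ W.gr X i) {i : ℕ}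
    (hi : i ≤ 2 * X.dim) :
    Module.finrank W.K (perp W X N i) + Module.finrank W.K (N (2 * X.dim - i)) =
      Module.finrank W.K (W.gr X i) := by
  set E := W.gr X i with hE
  set F := N (2 * X.dim - i) with hF
  let B : E →ₗ[W.K] F →ₗ[W.K] W.K :=
    ((LinearMap.mul W.K (W.H X)).compr₂ (W.tr X)).domRestrict₁₂ E F
  have hB : ∀ (x : E) (w : F), B x w = W.tr X ((x : W.H X) * w) := fun _ _ => rfl
  have hk := finrank_ker_pairing B
  have hk1 : Module.finrank W.K (LinearMap.ker B) = Module.finrank W.K (perp W X N i) := by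
    have : perp W X N i = (LinearMap.ker B).map E.subtype := by
      ext x
      rw [mem_perp, Submodule.mem_map]
      constructor
      · rintro ⟨hx, hx'⟩
        refine ⟨⟨x, hx⟩, ?_, rfl⟩
        rw [LinearMap.mem_ker]
        ext w
        rw [hB]
        exact hx' _ w w.2
      · rintro ⟨x', hx', rfl⟩
        refine ⟨x'.2, fun j w hw => ?_⟩
        by_cases hj : j = 2 * X.dim - i
        · subst hj
          have := congrArg (fun f => f ⟨w, hw⟩) (LinearMap.mem_ker.1 hx')
          simpa [hB] using this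
        · exact W.tr_eq_zero (W.mul_mem x'.2 (hN j hw)) (by omega)
    rw [this, finrank_map_subtype]
  have hk2 : LinearMap.ker B.flip = ⊥ := by
    rw [LinearMap.ker_eq_bot']
    intro w hw
    apply Subtype.ext
    apply nondeg_right
    intro c
    refine gr_induction (W.isInternal X) (p := fun c => W.tr X (c * w) = 0) ?_ ?_ c
    · intro m c hc
      by_cases hm : m = i
      · subst hm
        have := congrArg (fun f => f ⟨c, hc⟩) hw
        simpa [hB] using this
      · exact W.tr_eq_zero (W.mul_mem hc (hN _ w.2)) (by omega)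
    · intro c c' hc hc'
      rw [add_mul, map_add, hc, hc', add_zero]
  rw [hk2, finrank_bot, hk1] at hk
  omega

lemma excess_perp {N : ℕ → Submodule W.K (W.H X)} (hN : ∀ i, N i ≤ W.gr X i) :
    excess X.dim (perp W X N) = excess X.dim N := by
  rw [← sub_eq_zero]
  unfold excess
  rw [← sum_sub_distrib]
  apply sum_antisymm
  intro i hi
  have h1 := finrank_perp hN hi
  have h2 := finrank_perp hN (i := 2 * X.dim - i) (by omega)
  rw [show 2 * X.dim - (2 * X.dim - i) = i by omega] at h2
  have h3 := betti_symm' (W := W) hi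
  rw [h3] at h2
  have h4 : ((2 * X.dim - i : ℕ) : ℤ) - X.dim = -((i : ℤ) - X.dim) := by
    rw [Nat.cast_sub hi]
    push_cast
    ring
  rw [h4]
  have h5 : (Module.finrank W.K (perp W X N i) : ℤ) =
      Module.finrank W.K (W.gr X i) - Module.finrank W.K (N (2 * X.dim - i)) := by
    rw [← h1]; push_cast; ring
  have h6 : (Module.finrank W.K (perp W X N (2 * X.dim - i)) : ℤ) =
      Module.finrank W.K (W.gr X i) - Module.finrank W.K (N i) := by
    rw [← h2]; push_cast; ring
  rw [h5, h6]
  ring

/-- **The obstruction exists.** -/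
theorem exists_isObstruction (W : WeilCohomology.{u, v} ops) (X : 𝒱.Obj) :
    ∃ O, IsObstruction W X O := by
  obtain ⟨O, h1, h2, h3⟩ := exists_obstruction (gr := W.gr X) (n := X.dim) (S := cycleOperators W X)
    (fun i hi => W.gr_eq_bot X i hi)
  exact ⟨O, h1, h2, h3⟩

theorem IsObstruction.unique {O O' : ℕ → Submodule W.K (W.H X)} (h : IsObstruction W X O)
    (h' : IsObstruction W X O') : O = O' := by
  have he : excess X.dim O = excess X.dim O' :=
    le_antisymm (h'.largest _ h.stable) (h.largest _ h'.stable)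
  funext i
  exact le_antisymm (h.least _ h'.stable he.symm i) (h'.least _ h.stable he i)

theorem IsObstruction.isotropic {O : ℕ → Submodule W.K (W.H X)} (h : IsObstruction W X O) :
    IsIsotropicFor (W.tr X) O := by
  intro i j x hx y hy
  have := h.least _ (perp_isStable h.stable) (excess_perp h.stable.le) i hx
  exact (mem_perp.1 this).2 j y hy

theorem IsObstruction.fullyInvariant {O : ℕ → Submodule W.K (W.H X)}
    (h : IsObstruction W X O) : IsFullyInvariant W X O := fun _ hg =>
  invariant_of_least h.stable (fun i hi => W.gr_eq_bot X i hi) h.least hg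

/-- **The center of gravity criterion.** -/
theorem tfae {D : X.Cycles} (hD : X.IsCyc 1 D) (hHL : HardLefschetz W X D)
    {O : ℕ → Submodule W.K (W.H X)} (hO : IsObstruction W X O) :
    [LefschetzB W X D, ∀ i, O i = ⊥, StableSymmetric W X, GravityBound W X,
      InverseAtEachClass W X D].TFAE := by
  have hinj : ∀ c ≤ X.dim, ∀ a ∈ W.gr X (X.dim - c), W.cl X D ^ c * a = 0 → a = 0 := by
    intro c hc a ha h0
    apply (hHL (X.dim - c) (by omega)).1 a ha
    rw [show X.dim - (X.dim - c) = c by omega, LinearMap.pow_mulLeft]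
    exact h0
  have hle : ∀ N, IsStable W X N → ∀ c ≤ X.dim,
      Module.finrank W.K (N (X.dim - c)) ≤ Module.finrank W.K (N (X.dim + c)) := by
    intro N hN c hc
    rw [← finrank_map_injOn (LinearMap.mulLeft W.K (W.cl X D ^ c)) _
      (fun x hx h0 => hinj c hc x (hN.le _ hx) h0)]
    apply Submodule.finrank_mono
    rintro _ ⟨x, hx, rfl⟩
    exact hN.kop (by omega) (pow_cl_mem hD c) hx
  have hpt := lefschetzB_pointwise hD hHL
  tfae_have 1 ↔ 5 := hpt.out 0 1 rfl rfl
  tfae_have 1 → 3 := by
    intro hB N hN c hc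
    have h4 : LefschetzOnStable W X D := (hpt.out 0 3 rfl rfl).1 hB
    have h1 := h4 N hN c hc
    apply le_antisymm _ (hle N hN c hc)
    refine le_trans (Submodule.finrank_mono (t := (N (X.dim - c)).map
      (LinearMap.mulLeft W.K (W.cl X D ^ c))) ?_) (Submodule.finrank_map_le _ _)
    intro y hy
    obtain ⟨x, hx, h'⟩ := h1 y hy
    exact ⟨x, hx, by rw [LinearMap.pow_mulLeft] at h'; exact h'⟩
  tfae_have 3 → 4 := by
    intro h N hN _ _
    rw [excess_eq]
    apply le_of_eq
    refine sum_eq_zero fun c hc => ?_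
    rw [h N hN c (by have := mem_range.1 hc; omega), sub_self, mul_zero]
  tfae_have 4 → 2 := by
    intro h i
    have h1 := h O hO.stable hO.fullyInvariant hO.isotropic
    have h2 := hO.largest _ (isStableUnder_bot (n := X.dim))
    rw [excess_bot] at h2
    have h3 := hO.least _ (isStableUnder_bot (n := X.dim)) (by rw [excess_bot]; omega) i
    exact le_bot_iff.1 h3
  tfae_have 2 → 1 := by
    intro h
    have hO0 : O = ⊥ := funext h
    refine (hpt.out 0 4 rfl rfl).2 ?_
    intro N hN _ c hc
    have h1 := hO.largest N hN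
    rw [hO0, excess_bot, excess_eq] at h1
    have hnn : ∀ c ∈ range (X.dim + 1), 0 ≤ (c : ℤ) *
        ((Module.finrank W.K (N (X.dim + c)) : ℤ) - Module.finrank W.K (N (X.dim - c))) := by
      intro c hc
      apply mul_nonneg (Int.natCast_nonneg _)
      have := hle N hN c (by have := mem_range.1 hc; omega)
      omega
    have h0 := (sum_eq_zero_iff_of_nonneg hnn).1 (le_antisymm h1 (sum_nonneg hnn)) c
      (mem_range.2 (by omega))
    rcases Nat.eq_zero_or_pos c with rfl | hc0
    · simp
    · rcases mul_eq_zero.1 h0 with h | h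
      · omega
      · omega
  tfae_finish

end Pool.Agent.N190.CG
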